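import Pool.Agent.Helper36.LM.Defs

/-!
# LM-A: elementary facts on `Good` and `Big`
-/

set_option autoImplicit false

namespace Pool.Agent.Helper36.LM

open Module Finset

theorem Good.mono {K : Type} {n m : ℕ} {P Q : K → Prop} (h : Good n P) (hn : n ≤ m)
    (hPQ : ∀ μ, P μ → Q μ) : Good m Q := by
  obtain ⟨S, hS, h1⟩ := h
  exact ⟨S, hS.trans hn, fun μ hμ => hPQ μ (h1 μ hμ)⟩

theorem Good.and {K : Type} {n m : ℕ} {P Q : K → Prop} (h : Good n P) (h' : Good m Q) :
    Good (n + m) (fun μ => P μ ∧ Q μ) := by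
  classical
  obtain ⟨S, hS, h1⟩ := h
  obtain ⟨S', hS', h2⟩ := h'
  refine ⟨S ∪ S', (Finset.card_union_le S S').trans (by omega), fun μ hμ => ?_⟩
  rw [Finset.mem_union, not_or] at hμ
  exact ⟨h1 μ hμ.1, h2 μ hμ.2⟩

theorem Good.all {K : Type} {α : Type} (s : Finset α) {n : ℕ} {P : α → K → Prop}
    (h : ∀ x ∈ s, Good n (P x)) : Good (s.card * n) (fun μ => ∀ x ∈ s, P x μ) := by
  classical
  induction s using Finset.induction_on with
  | empty => exact ⟨∅, by simp, fun μ _ x hx => absurd hx (Finset.notMem_empty x)⟩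
  | insert a s ha ih =>
    have h1 := ih (fun x hx => h x (Finset.mem_insert_of_mem hx))
    have h2 := h a (Finset.mem_insert_self a s)
    refine (h1.and h2).mono ?_ ?_
    · rw [Finset.card_insert_of_notMem ha]
      exact le_of_eq (by ring)
    · rintro μ ⟨q1, q2⟩ x hx
      rcases Finset.mem_insert.mp hx with rfl | hx
      · exact q2
      · exact q1 x hx

theorem Good.exists {K : Type} {n : ℕ} {P : K → Prop} (hK : Big K n) (h : Good n P) :
    ∃ μ, P μ := by
  obtain ⟨S, hS, h1⟩ := h
  obtain ⟨μ, hμ⟩ := hK S hS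
  exact ⟨μ, h1 μ hμ⟩

/-- a nonzero polynomial of degree at most two has at most two roots -/
theorem good_quad {K : Type} [Field K] (x y z : K) (h : x ≠ 0) :
    Good 2 (fun μ : K => x + y * μ + z * μ ^ 2 ≠ 0) := by
  classical
  let p : Polynomial K := Polynomial.C x + Polynomial.C y * Polynomial.X +
    Polynomial.C z * Polynomial.X ^ 2
  have hp : p ≠ 0 := by
    intro h0
    have := congrArg (fun q : Polynomial K => q.coeff 0) h0
    simp [p] at this
    exact h this
  refine ⟨p.roots.toFinset, ?_, ?_⟩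
  · refine (Multiset.toFinset_card_le _).trans ((Polynomial.card_roots' p).trans ?_)
    simp only [p]
    compute_degree
  · intro μ hμ h0
    apply hμ
    rw [Multiset.mem_toFinset, Polynomial.mem_roots hp, Polynomial.IsRoot.def]
    simp only [p, Polynomial.eval_add, Polynomial.eval_mul, Polynomial.eval_C, Polynomial.eval_X,
      Polynomial.eval_pow]
    exact h0

theorem good_lin {K : Type} [Field K] (x y : K) (h : x ≠ 0 ∨ y ≠ 0) :
    Good 1 (fun μ : K => x + y * μ ≠ 0) := by
  classical
  by_cases hy : y = 0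
  · refine ⟨∅, by simp, fun μ _ => ?_⟩
    show x + y * μ ≠ 0
    rw [hy, zero_mul, add_zero]
    exact h.resolve_right (fun h' => h' hy)
  · refine ⟨{-x / y}, by simp, fun μ hμ h0 => hμ ?_⟩
    rw [Finset.mem_singleton, eq_div_iff hy]
    linear_combination h0

end Pool.Agent.Helper36.LM
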